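import Mathlib
import Pool.Agent.Q234.HF.Core

/-! # Splitting off edges without creating bridges -/

set_option autoImplicit false
set_option linter.unusedSectionVars false

namespace Pool.Agent.Q234.HG
open Finset Pool.Agent.H160R2.HF Pool.Agent.H160R2.HF.OrGraph Pool.Agent.Q234.HF
open Pool.Agent.TH60.HE (nl merge nl_merge merge_bridgeless)

variable {V E : Type*} [Fintype V] [Fintype E] [DecidableEq V] [DecidableEq E]

/-- the number of vertices of odd degree (loops do not matter) -/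
def od (G : OrGraph V E) : ℕ := (univ.filter fun v => Odd (G.cut {v}).card).card

/-- the end `v` of `e₀` is moved to `u`, and `e₁` becomes a loop at `v` -/
def spl (G : OrGraph V E) (v : V) (e₀ e₁ : E) (u : V) : OrGraph V E where
  t x := if x = e₁ then v else if x = e₀ ∧ G.t x = v then u else G.t x
  h x := if x = e₁ then v else if x = e₀ ∧ G.h x = v then u else G.h x

lemma spl_mem {G : OrGraph V E} {v u₀ u₁ : V} {e₀ e₁ : E} (h0 : Joins G e₀ v u₀)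
    (hu0 : u₀ ≠ v) (X : Finset V) (_hv : v ∉ X) (z : E) :
    z ∈ (spl G v e₀ e₁ u₁).cut X ↔
      (z ≠ e₁ ∧ z ≠ e₀ ∧ z ∈ G.cut X) ∨ (z ≠ e₁ ∧ z = e₀ ∧ ¬ (u₁ ∈ X ↔ u₀ ∈ X)) := by
  rw [mem_cut, mem_cut]
  unfold spl
  dsimp only
  by_cases h1 : z = e₁
  · simp [h1]
  · by_cases h2 : z = e₀
    · subst h2
      rcases h0 with ⟨h3, h4⟩ | ⟨h3, h4⟩
      · simp [h1, h3, h4, hu0]
      · simp [h1, h3, h4, hu0, iff_comm]
    · simp [h1, h2]

lemma joins_mem_cut {G : OrGraph V E} {e : E} {v u : V} (h : Joins G e v u) {X : Finset V}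
    (hv : v ∉ X) : e ∈ G.cut X ↔ u ∈ X := by
  rw [h.cut_iff]
  simp [hv]

lemma spl_card_same {G : OrGraph V E} {v u₀ u₁ : V} {e₀ e₁ : E} (h0 : Joins G e₀ v u₀)
    (h1 : Joins G e₁ v u₁) (hu0 : u₀ ≠ v) (hne : e₀ ≠ e₁) {X : Finset V} (hv : v ∉ X)
    (hX : ¬ (u₀ ∈ X ∧ u₁ ∈ X)) :
    ((spl G v e₀ e₁ u₁).cut X).card = (G.cut X).card := by
  have m0 := joins_mem_cut h0 hv
  have m1 := joins_mem_cut h1 hv
  by_cases a : u₀ ∈ X
  · have b : u₁ ∉ X := fun h => hX ⟨a, h⟩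
    congr 1
    ext z
    rw [spl_mem h0 hu0 X hv]
    by_cases hz1 : z = e₁
    · subst hz1
      simp [m1, b]
    · by_cases hz0 : z = e₀
      · subst hz0
        simp [m0, a, b, hz1]
      · simp [hz0, hz1]
  · by_cases b : u₁ ∈ X
    · have h2 : (spl G v e₀ e₁ u₁).cut X = insert e₀ ((G.cut X).erase e₁) := by
        ext z
        rw [spl_mem h0 hu0 X hv, mem_insert, mem_erase]
        by_cases hz1 : z = e₁
        · subst hz1
          simp [hne.symm]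
        · by_cases hz0 : z = e₀
          · subst hz0
            simp [a, b, hz1]
          · simp [hz0, hz1]
      have h3 : e₁ ∈ G.cut X := m1.2 b
      rw [h2, card_insert_of_notMem, card_erase_of_mem h3]
      · have := card_pos.2 ⟨_, h3⟩
        omega
      · rw [mem_erase, m0]
        exact fun h => a h.2
    · congr 1
      ext z
      rw [spl_mem h0 hu0 X hv]
      by_cases hz1 : z = e₁
      · subst hz1
        simp [m1, b]
      · by_cases hz0 : z = e₀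
        · subst hz0
          simp [m0, a, b, hz1]
        · simp [hz0, hz1]

lemma spl_card_two {G : OrGraph V E} {v u₀ u₁ : V} {e₀ e₁ : E} (h0 : Joins G e₀ v u₀)
    (h1 : Joins G e₁ v u₁) (hu0 : u₀ ≠ v) (hne : e₀ ≠ e₁) {X : Finset V} (hv : v ∉ X)
    (a : u₀ ∈ X) (b : u₁ ∈ X) :
    ((spl G v e₀ e₁ u₁).cut X).card + 2 = (G.cut X).card := by
  have m0 := joins_mem_cut h0 hv
  have m1 := joins_mem_cut h1 hv
  have h2 : (spl G v e₀ e₁ u₁).cut X = ((G.cut X).erase e₁).erase e₀ := by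
    ext z
    rw [spl_mem h0 hu0 X hv, mem_erase, mem_erase]
    by_cases hz1 : z = e₁
    · subst hz1
      simp
    · by_cases hz0 : z = e₀
      · subst hz0
        simp [a, b, hz1]
      · simp [hz0, hz1]
  have h3 : e₁ ∈ G.cut X := m1.2 b
  have h4 : e₀ ∈ (G.cut X).erase e₁ := mem_erase.2 ⟨hne, m0.2 a⟩
  rw [h2, card_erase_of_mem h4, card_erase_of_mem h3]
  have h5 := card_pos.2 ⟨_, h4⟩
  rw [card_erase_of_mem h3] at h5
  omega

lemma spl_bridgeless {G : OrGraph V E} (hG : G.Bridgeless) {v u₀ u₁ : V} {e₀ e₁ : E}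
    (h0 : Joins G e₀ v u₀) (h1 : Joins G e₁ v u₁) (hu0 : u₀ ≠ v) (hne : e₀ ≠ e₁)
    (H : ∀ X : Finset V, v ∉ X → u₀ ∈ X → u₁ ∈ X → (G.cut X).card ≠ 3) :
    (spl G v e₀ e₁ u₁).Bridgeless := by
  have key : ∀ X : Finset V, v ∉ X → ((spl G v e₀ e₁ u₁).cut X).card ≠ 1 := by
    intro X hv hc
    by_cases hX : u₀ ∈ X ∧ u₁ ∈ X
    · have h2 := spl_card_two h0 h1 hu0 hne hv hX.1 hX.2
      exact H X hv hX.1 hX.2 (by omega)
    · rw [spl_card_same h0 h1 hu0 hne hv hX] at hc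
      exact card_ne_one hG X hc
  rw [bridgeless_iff]
  intro X e he
  by_cases hv : v ∈ X
  · apply key Xᶜ (by simpa using hv)
    rw [cut_compl, he, card_singleton]
  · apply key X hv
    rw [he, card_singleton]

lemma spl_od {G : OrGraph V E} {v u₀ u₁ : V} {e₀ e₁ : E}
    (h0 : Joins G e₀ v u₀) (h1 : Joins G e₁ v u₁) (hu0 : u₀ ≠ v) (hu1 : u₁ ≠ v) (hne : e₀ ≠ e₁) :
    od (spl G v e₀ e₁ u₁) = od G := by
  unfold od
  congr 1
  ext w
  rw [mem_filter, mem_filter]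
  simp only [mem_univ, true_and]
  by_cases hw : w = v
  · subst hw
    have h2 := spl_card_two (X := ({w} : Finset V)ᶜ) h0 h1 hu0 hne (by simp) (by simpa using hu0)
      (by simpa using hu1)
    rw [cut_compl, cut_compl] at h2
    rw [← h2, Nat.odd_add]
    simp
  · have hv : v ∉ ({w} : Finset V) := by
      rw [mem_singleton]
      exact fun h => hw h.symm
    by_cases hX : u₀ ∈ ({w} : Finset V) ∧ u₁ ∈ ({w} : Finset V)
    · have h2 := spl_card_two h0 h1 hu0 hne hv hX.1 hX.2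
      rw [← h2, Nat.odd_add]
      simp
    · rw [spl_card_same h0 h1 hu0 hne hv hX]

lemma spl_nl {G : OrGraph V E} {v u₀ u₁ : V} {e₀ e₁ : E}
    (h0 : Joins G e₀ v u₀) (h1 : Joins G e₁ v u₁) (hu0 : u₀ ≠ v) (hu1 : u₁ ≠ v) :
    nl (spl G v e₀ e₁ u₁) < nl G := by
  unfold nl
  apply card_lt_card
  rw [ssubset_iff_of_subset]
  · refine ⟨e₁, ?_, ?_⟩
    · rw [mem_filter]
      exact ⟨mem_univ _, h1.not_loop hu1.symm⟩
    · rw [mem_filter, not_and, not_not]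
      intro _
      unfold spl
      simp
  · intro x hx
    rw [mem_filter] at hx ⊢
    refine ⟨mem_univ _, fun h => hx.2 ?_⟩
    unfold spl
    dsimp only
    by_cases hx1 : x = e₁
    · simp [hx1]
    · by_cases hx0 : x = e₀
      · subst hx0
        exact absurd h (h0.not_loop hu0.symm)
      · simp [hx1, hx0, h]

lemma spl_gn {G : OrGraph V E} {v u₀ u₁ : V} {e₀ e₁ : E}
    (h0 : Joins G e₀ v u₀) (hu0 : u₀ ≠ v) (hne : e₀ ≠ e₁) (ψ : E → P) (w : V) :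
    gn (spl G v e₀ e₁ u₁) ψ w = gn G (fun x => if x = e₁ then 0 else ψ x) w +
      ((if u₁ = w then sg (G.t e₀ = v) (ψ e₀) else 0) -
        (if v = w then sg (G.t e₀ = v) (ψ e₀) else 0)) := by
  have h2 : ((if u₁ = w then sg (G.t e₀ = v) (ψ e₀) else 0) -
      (if v = w then sg (G.t e₀ = v) (ψ e₀) else 0)) =
      ∑ x, if x = e₀ then ((if u₁ = w then sg (G.t e₀ = v) (ψ e₀) else 0) -
        (if v = w then sg (G.t e₀ = v) (ψ e₀) else 0)) else 0 := by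
    rw [Finset.sum_ite_eq' univ e₀]
    simp
  rw [h2]
  unfold gn
  rw [← Finset.sum_add_distrib]
  refine Finset.sum_congr rfl fun x _ => ?_
  unfold spl
  dsimp only
  by_cases hx1 : x = e₁
  · subst hx1
    simp [hne.symm]
  · by_cases hx0 : x = e₀
    · subst hx0
      unfold sg
      rcases h0 with ⟨h3, h4⟩ | ⟨h3, h4⟩
      · simp only [hx1, h3, h4, hu0, if_true, if_false, and_self, and_false]
        by_cases a : u₁ = w <;> by_cases b : v = w <;> by_cases c : u₀ = w <;> simp [a, b, c]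
      · simp only [hx1, h3, h4, hu0, if_true, if_false, and_self, and_false]
        by_cases a : u₁ = w <;> by_cases b : v = w <;> by_cases c : u₀ = w <;> simp [a, b, c]
    · simp [hx1, hx0]

lemma spl_good {G : OrGraph V E} {v u₀ u₁ : V} {e₀ e₁ : E}
    (h0 : Joins G e₀ v u₀) (h1 : Joins G e₁ v u₁) (hu0 : u₀ ≠ v) (hu1 : u₁ ≠ v) (hne : e₀ ≠ e₁)
    (H : Good (spl G v e₀ e₁ u₁)) : Good G := by
  obtain ⟨ψ, hψ, hok⟩ := H
  refine ⟨fun x => (if x = e₁ then 0 else ψ x) +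
    along G e₁ u₁ (sg (G.t e₀ = v) (ψ e₀)) x, fun w => ?_, fun x => ?_⟩
  · rw [gn_add, gn_along h1.symm' hu1, ← spl_gn h0 hu0 hne]
    exact hψ w
  · unfold along
    by_cases hx : x = e₁
    · subst hx
      simp only [if_true, zero_add]
      exact ok_sg _ (ok_sg _ (hok _))
    · simp only [if_neg hx, add_zero]
      exact hok x

lemma sum_cut (G : OrGraph V E) (X : Finset V) :
    (G.cut X).card = ∑ e, if (G.t e ∈ X ↔ G.h e ∈ X) then 0 else 1 := by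
  unfold OrGraph.cut
  rw [card_filter]
  refine sum_congr rfl fun e _ => ?_
  by_cases h : (G.t e ∈ X ↔ G.h e ∈ X) <;> simp [h]

lemma two_le {G : OrGraph V E} (hG : G.Bridgeless) {X : Finset V} {e : E} (he : e ∈ G.cut X) :
    2 ≤ (G.cut X).card := by
  have h1 := card_ne_one hG X
  have h2 := card_pos.2 ⟨e, he⟩
  omega

/-- uncrossing two cuts with three edges -/
lemma uncross {G : OrGraph V E} (hG : G.Bridgeless) {v u₀ u₁ u₂ : V} {e₀ e₁ e₂ : E}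
    (h0 : Joins G e₀ v u₀) (h1 : Joins G e₁ v u₁) (h2 : Joins G e₂ v u₂) {X Y : Finset V}
    (vX : v ∉ X) (vY : v ∉ Y) (a : u₀ ∈ X) (a' : u₀ ∈ Y) (b : u₁ ∈ X) (b' : u₁ ∉ Y)
    (c : u₂ ∉ X) (c' : u₂ ∈ Y) (cX : (G.cut X).card = 3) (cY : (G.cut Y).card = 3) :
    (G.cut (X ∪ Y)).card ≤ 3 := by
  have i1 : (G.cut X).card + (G.cut Y).card = (G.cut (X \ Y)).card + (G.cut (Y \ X)).card +
      2 * ∑ e, (if (G.t e ∈ X ∧ G.t e ∈ Y ∧ G.h e ∉ X ∧ G.h e ∉ Y) ∨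
        (G.h e ∈ X ∧ G.h e ∈ Y ∧ G.t e ∉ X ∧ G.t e ∉ Y) then 1 else 0) := by
    simp only [sum_cut, Finset.mul_sum, ← Finset.sum_add_distrib]
    refine sum_congr rfl fun e _ => ?_
    by_cases p : G.t e ∈ X <;> by_cases q : G.t e ∈ Y <;> by_cases r : G.h e ∈ X <;>
      by_cases s : G.h e ∈ Y <;> simp [p, q, r, s]
  have i2 : (G.cut (X ∩ Y)).card + (G.cut (X \ Y)).card = (G.cut X).card +
      2 * ∑ e, (if (G.t e ∈ X ∧ G.t e ∈ Y ∧ G.h e ∈ X ∧ G.h e ∉ Y) ∨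
        (G.h e ∈ X ∧ G.h e ∈ Y ∧ G.t e ∈ X ∧ G.t e ∉ Y) then 1 else 0) := by
    simp only [sum_cut, Finset.mul_sum, ← Finset.sum_add_distrib]
    refine sum_congr rfl fun e _ => ?_
    by_cases p : G.t e ∈ X <;> by_cases q : G.t e ∈ Y <;> by_cases r : G.h e ∈ X <;>
      by_cases s : G.h e ∈ Y <;> simp [p, q, r, s]
  have i3 : (G.cut (X ∩ Y)).card + (G.cut (X ∪ Y)).card ≤ (G.cut X).card + (G.cut Y).card := by
    simp only [sum_cut, ← Finset.sum_add_distrib]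
    refine sum_le_sum fun e _ => ?_
    by_cases p : G.t e ∈ X <;> by_cases q : G.t e ∈ Y <;> by_cases r : G.h e ∈ X <;>
      by_cases s : G.h e ∈ Y <;> simp [p, q, r, s]
  have i4 : 1 ≤ ∑ e, (if (G.t e ∈ X ∧ G.t e ∈ Y ∧ G.h e ∉ X ∧ G.h e ∉ Y) ∨
        (G.h e ∈ X ∧ G.h e ∈ Y ∧ G.t e ∉ X ∧ G.t e ∉ Y) then 1 else 0) := by
    rw [← card_filter]
    apply card_pos.2
    refine ⟨e₀, ?_⟩
    rw [mem_filter]
    refine ⟨mem_univ _, ?_⟩
    rcases h0 with ⟨h3, h4⟩ | ⟨h3, h4⟩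
    · rw [h3, h4]; exact Or.inr ⟨a, a', vX, vY⟩
    · rw [h3, h4]; exact Or.inl ⟨a, a', vX, vY⟩
  have i5 : 2 ≤ (G.cut (X \ Y)).card :=
    two_le hG ((joins_mem_cut h1 (by simp [vX])).2 (mem_sdiff.2 ⟨b, b'⟩))
  have i6 : 2 ≤ (G.cut (Y \ X)).card :=
    two_le hG ((joins_mem_cut h2 (by simp [vY])).2 (mem_sdiff.2 ⟨c', c⟩))
  have i7 : 2 ≤ (G.cut (X ∩ Y)).card :=
    two_le hG ((joins_mem_cut h0 (by simp [vX])).2 (mem_inter.2 ⟨a, a'⟩))
  omega

/-- a set whose outgoing edges all lead to `v` -/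
lemma final {G : OrGraph V E} (hG : G.Bridgeless) {v u₀ u₃ : V} {e₀ e₃ : E}
    (h0 : Joins G e₀ v u₀) (h3 : Joins G e₃ v u₃) {Z X : Finset V}
    (vZ : v ∉ Z) (vX : v ∉ X) (a : u₀ ∈ Z) (a' : u₀ ∈ X) (b : u₃ ∉ Z) (b' : u₃ ∈ X)
    (hZ : ∀ f ∈ G.cut Z, G.t f = v ∨ G.h f = v) (cX : (G.cut X).card = 3) : False := by
  have hZ' : ∀ f, ¬ (G.t f ∈ Z ↔ G.h f ∈ Z) → G.t f = v ∨ G.h f = v :=
    fun f h => hZ f (mem_cut.2 h)
  have i1 : 2 ≤ (G.cut (X \ Z)).card :=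
    two_le hG ((joins_mem_cut h3 (by simp [vX])).2 (mem_sdiff.2 ⟨b', b⟩))
  have i2 : 2 ≤ (G.cut (Z ∩ X)).card :=
    two_le hG ((joins_mem_cut h0 (by simp [vX])).2 (mem_inter.2 ⟨a, a'⟩))
  have i3 : Disjoint (G.cut (X \ Z)) (G.cut (Z ∩ X)) := by
    rw [Finset.disjoint_left]
    intro f hf hf'
    rw [mem_cut] at hf hf'
    have h4 := hZ' f
    have h5 : G.t f = v → G.t f ∉ Z ∧ G.t f ∉ X := fun h => by rw [h]; exact ⟨vZ, vX⟩
    have h6 : G.h f = v → G.h f ∉ Z ∧ G.h f ∉ X := fun h => by rw [h]; exact ⟨vZ, vX⟩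
    clear hZ' hZ
    rw [mem_sdiff, mem_sdiff] at hf
    rw [mem_inter, mem_inter] at hf'
    tauto
  have i4 : G.cut (X \ Z) ∪ G.cut (Z ∩ X) ⊆ G.cut X := by
    intro f hf
    rw [mem_union, mem_cut, mem_cut] at hf
    rw [mem_cut]
    have h4 := hZ' f
    have h5 : G.t f = v → G.t f ∉ Z ∧ G.t f ∉ X := fun h => by rw [h]; exact ⟨vZ, vX⟩
    have h6 : G.h f = v → G.h f ∉ Z ∧ G.h f ∉ X := fun h => by rw [h]; exact ⟨vZ, vX⟩
    clear hZ' hZ
    rw [mem_sdiff, mem_sdiff, mem_inter, mem_inter] at hf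
    tauto
  have i5 := card_le_card i4
  rw [card_union_of_disjoint i3] at i5
  omega

/-- **Splitting lemma.**  One of three pairs can be split off. -/
lemma split_ok {G : OrGraph V E} (hG : G.Bridgeless) {v u₀ u₁ u₂ u₃ : V} {e₀ e₁ e₂ e₃ : E}
    (h0 : Joins G e₀ v u₀) (h1 : Joins G e₁ v u₁) (h2 : Joins G e₂ v u₂) (h3 : Joins G e₃ v u₃)
    (n01 : e₀ ≠ e₁) (n02 : e₀ ≠ e₂) (n12 : e₁ ≠ e₂) (n03 : e₀ ≠ e₃) (n13 : e₁ ≠ e₃)
    (n23 : e₂ ≠ e₃) {X Y W : Finset V}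
    (vX : v ∉ X) (x0 : u₀ ∈ X) (x1 : u₁ ∈ X) (cX : (G.cut X).card = 3)
    (vY : v ∉ Y) (y0 : u₀ ∈ Y) (y2 : u₂ ∈ Y) (cY : (G.cut Y).card = 3)
    (vW : v ∉ W) (w0 : u₀ ∈ W) (w3 : u₃ ∈ W) (cW : (G.cut W).card = 3) : False := by
  obtain ⟨Z, vZ, z0, z1, z2, cZ⟩ : ∃ Z : Finset V, v ∉ Z ∧ u₀ ∈ Z ∧ u₁ ∈ Z ∧ u₂ ∈ Z ∧
      (G.cut Z).card ≤ 3 := by
    by_cases p : u₂ ∈ X
    · exact ⟨X, vX, x0, x1, p, cX.le⟩
    · by_cases q : u₁ ∈ Y
      · exact ⟨Y, vY, y0, q, y2, cY.le⟩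
      · exact ⟨X ∪ Y, by simp [vX, vY], mem_union_left _ x0, mem_union_left _ x1,
          mem_union_right _ y2, uncross hG h0 h1 h2 vX vY x0 y0 x1 q p y2 cX cY⟩
  have hsub : ({e₀, e₁, e₂} : Finset E) ⊆ G.cut Z := by
    intro f hf
    simp only [mem_insert, mem_singleton] at hf
    rcases hf with rfl | rfl | rfl
    · exact (joins_mem_cut h0 vZ).2 z0
    · exact (joins_mem_cut h1 vZ).2 z1
    · exact (joins_mem_cut h2 vZ).2 z2
  have hcard : ({e₀, e₁, e₂} : Finset E).card = 3 := card_eq_three.2 ⟨_, _, _, n01, n02, n12, rfl⟩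
  have heq : ({e₀, e₁, e₂} : Finset E) = G.cut Z := eq_of_subset_of_card_le hsub (by omega)
  refine final hG h0 h3 vZ vW z0 w0 ?_ w3 ?_ cW
  · intro h
    have h4 := (joins_mem_cut h3 vZ).2 h
    rw [← heq] at h4
    simp only [mem_insert, mem_singleton] at h4
    rcases h4 with h4 | h4 | h4
    · exact n03 h4.symm
    · exact n13 h4.symm
    · exact n23 h4.symm
  · intro f hf
    rw [← heq] at hf
    simp only [mem_insert, mem_singleton] at hf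
    rcases hf with rfl | rfl | rfl
    · exact h0.elim (fun h => Or.inl h.1) (fun h => Or.inr h.2)
    · exact h1.elim (fun h => Or.inl h.1) (fun h => Or.inr h.2)
    · exact h2.elim (fun h => Or.inl h.1) (fun h => Or.inr h.2)

lemma exists_joins {G : OrGraph V E} {v : V} {e : E} (he : e ∈ G.cut {v}) :
    ∃ u, u ≠ v ∧ Joins G e v u := by
  rw [mem_cut_one] at he
  by_cases h : G.t e = v
  · exact ⟨G.h e, fun h' => he ⟨fun _ => h', fun _ => h⟩, Or.inl ⟨h, rfl⟩⟩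
  · refine ⟨G.t e, h, Or.inr ⟨rfl, ?_⟩⟩
    by_contra h'
    exact he ⟨fun h'' => absurd h'' h, fun h'' => absurd h'' h'⟩

/-- a vertex with at least four edges can be reduced -/
lemma exists_split {G : OrGraph V E} (hG : G.Bridgeless) {v : V} (hv : 4 ≤ (G.cut {v}).card) :
    ∃ G' : OrGraph V E, G'.Bridgeless ∧ nl G' < nl G ∧ od G' = od G ∧ (Good G' → Good G) := by
  obtain ⟨e₀, he₀⟩ : (G.cut {v}).Nonempty := card_pos.1 (by omega)
  obtain ⟨e₁, e₂, e₃, m1, m2, m3, n12, n13, n23⟩ := two_lt_card_iff.1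
    (show 2 < ((G.cut {v}).erase e₀).card by rw [card_erase_of_mem he₀]; omega)
  rw [mem_erase] at m1 m2 m3
  obtain ⟨u₀, hu0, h0⟩ := exists_joins he₀
  obtain ⟨u₁, hu1, h1⟩ := exists_joins m1.2
  obtain ⟨u₂, hu2, h2⟩ := exists_joins m2.2
  obtain ⟨u₃, hu3, h3⟩ := exists_joins m3.2
  by_cases H1 : ∀ X : Finset V, v ∉ X → u₀ ∈ X → u₁ ∈ X → (G.cut X).card ≠ 3
  · exact ⟨_, spl_bridgeless hG h0 h1 hu0 m1.1.symm H1, spl_nl h0 h1 hu0 hu1,
      spl_od h0 h1 hu0 hu1 m1.1.symm, spl_good h0 h1 hu0 hu1 m1.1.symm⟩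
  by_cases H2 : ∀ X : Finset V, v ∉ X → u₀ ∈ X → u₂ ∈ X → (G.cut X).card ≠ 3
  · exact ⟨_, spl_bridgeless hG h0 h2 hu0 m2.1.symm H2, spl_nl h0 h2 hu0 hu2,
      spl_od h0 h2 hu0 hu2 m2.1.symm, spl_good h0 h2 hu0 hu2 m2.1.symm⟩
  by_cases H3 : ∀ X : Finset V, v ∉ X → u₀ ∈ X → u₃ ∈ X → (G.cut X).card ≠ 3
  · exact ⟨_, spl_bridgeless hG h0 h3 hu0 m3.1.symm H3, spl_nl h0 h3 hu0 hu3,
      spl_od h0 h3 hu0 hu3 m3.1.symm, spl_good h0 h3 hu0 hu3 m3.1.symm⟩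
  exfalso
  push Not at H1 H2 H3
  obtain ⟨X, vX, x0, x1, cX⟩ := H1
  obtain ⟨Y, vY, y0, y2, cY⟩ := H2
  obtain ⟨W, vW, w0, w3, cW⟩ := H3
  exact split_ok hG h0 h1 h2 h3 m1.1.symm m2.1.symm n12 m3.1.symm n13 n23 vX x0 x1 cX vY y0 y2 cY
    vW w0 w3 cW

/-- reduction to degree at most three -/
theorem to_three (n : ℕ) : ∀ G : OrGraph V E, nl G = n → G.Bridgeless →
    ∃ G' : OrGraph V E, G'.Bridgeless ∧ (∀ v, (G'.cut {v}).card ≤ 3) ∧ od G' = od G ∧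
      (Good G' → Good G) := by
  induction n using Nat.strong_induction_on with
  | _ n ih =>
    intro G hn hG
    by_cases h : ∀ v, (G.cut {v}).card ≤ 3
    · exact ⟨G, hG, h, rfl, id⟩
    · push Not at h
      obtain ⟨v, hv⟩ := h
      obtain ⟨G', h1, h2, h3, h4⟩ := exists_split hG (v := v) hv
      obtain ⟨G'', k1, k2, k3, k4⟩ := ih _ (hn ▸ h2) G' rfl h1
      exact ⟨G'', k1, k2, k3.trans h3, fun h => h4 (k4 h)⟩

end Pool.Agent.Q234.HG
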