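import Mathlib
import Pool.Agent.Q234.HG.Split

/-! # The induction of `Pool.Agent.Q234.HF.Ind`, with the number of odd vertices -/

set_option autoImplicit false
set_option linter.unusedSectionVars false

namespace Pool.Agent.Q234.HG
open Finset Pool.Agent.H160R2.HF Pool.Agent.H160R2.HF.OrGraph Pool.Agent.Q234.HF
open Pool.Agent.TH60.HE (nl merge nl_merge merge_bridgeless)

variable {V E : Type*} [Fintype V] [Fintype E] [DecidableEq V] [DecidableEq E]

/-- merging the ends of an edge does not increase the number of odd vertices if one of the ends is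
even -/
lemma od_merge {G : OrGraph V E} {v : V} (hv : (G.cut {v}).card = 2) {a : E}
    (hma : a ∈ G.cut {v}) : od (merge G a) ≤ od G := by
  have hma' := mem_cut_one.1 hma
  have hpq : G.t a ≠ G.h a := by
    intro h
    rw [h] at hma'
    exact hma' Iff.rfl
  have h5 : v = G.t a ∨ v = G.h a := by
    by_contra h
    push Not at h
    exact hma' ⟨fun h' => absurd h'.symm h.1, fun h' => absurd h'.symm h.2⟩
  have c1 : (merge G a).cut {G.h a} = ∅ := by
    ext z
    rw [mem_cut_one]
    have h2 : (merge G a).t z ≠ G.h a := by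
      unfold merge
      dsimp only
      split_ifs with h3
      · exact hpq
      · exact h3
    have h3 : (merge G a).h z ≠ G.h a := by
      unfold merge
      dsimp only
      split_ifs with h3
      · exact hpq
      · exact h3
    simp [h2, h3]
  have c2 : ∀ w, w ≠ G.h a → w ≠ G.t a → (merge G a).cut {w} = G.cut {w} := by
    intro w hwq hwp
    ext z
    rw [mem_cut_one, mem_cut_one]
    have key : ∀ u : V, ((if u = G.h a then G.t a else u) = w ↔ u = w) := by
      intro u
      split_ifs with h
      · rw [h]
        exact ⟨fun h => absurd h.symm hwp, fun h => absurd h.symm hwq⟩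
      · exact Iff.rfl
    unfold merge
    dsimp only
    rw [key, key]
  have c3 : ((merge G a).cut {G.t a}).card + 2 * (∑ e, if (G.t e = G.t a ∧ G.h e = G.h a) ∨
      (G.t e = G.h a ∧ G.h e = G.t a) then 1 else 0) =
      (G.cut {G.t a}).card + (G.cut {G.h a}).card := by
    simp only [sum_cut, Finset.mul_sum, ← Finset.sum_add_distrib, mem_singleton]
    refine sum_congr rfl fun e _ => ?_
    unfold merge
    dsimp only
    by_cases p : G.t e = G.t a <;> by_cases q : G.t e = G.h a <;> by_cases r : G.h e = G.t a <;>
      by_cases s : G.h e = G.h a <;> simp_all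
  have par : Odd ((merge G a).cut {G.t a}).card → Odd (G.cut {G.t a}).card ∨
      Odd (G.cut {G.h a}).card := by
    intro h
    by_contra hcon
    rw [not_or, Nat.not_odd_iff_even, Nat.not_odd_iff_even] at hcon
    have h1 := hcon.1.add hcon.2
    rw [← c3, Nat.even_add] at h1
    exact (Nat.not_even_iff_odd.2 h) (h1.2 (even_two_mul _))
  unfold od
  refine Finset.card_le_card_of_injOn (fun w => if w = G.t a then (if v = G.t a then G.h a
    else G.t a) else w) ?_ ?_
  · intro w hw
    rw [mem_coe, mem_filter] at hw ⊢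
    refine ⟨mem_univ _, ?_⟩
    dsimp only
    have hw2 := hw.2
    by_cases h1 : w = G.t a
    · rw [if_pos h1]
      rw [h1] at hw2
      have h2 := par hw2
      by_cases h3 : v = G.t a
      · rw [if_pos h3]
        rw [h3] at hv
        rw [hv] at h2
        exact h2.resolve_left (by decide)
      · rw [if_neg h3]
        rw [h5.resolve_left h3] at hv
        rw [hv] at h2
        exact h2.resolve_right (by decide)
    · rw [if_neg h1]
      by_cases h2 : w = G.h a
      · rw [h2, c1] at hw2
        simp at hw2
      · rw [c2 w h2 h1] at hw2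
        exact hw2
  · have hne : ∀ w ∈ (univ.filter fun w => Odd ((merge G a).cut {w}).card : Finset V),
        w ≠ G.h a := by
      intro w hw h
      rw [mem_filter, h, c1] at hw
      simp at hw
    intro w hw w' hw' h
    have k1 := hne w hw
    have k2 := hne w' hw'
    dsimp only at h
    by_cases h3 : v = G.t a
    · simp only [if_pos h3] at h
      split_ifs at h with p q q
      · rw [p, q]
      · exact absurd h.symm k2
      · exact absurd h k1
      · exact h
    · simp only [if_neg h3] at h
      split_ifs at h with p q q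
      · rw [p, q]
      · exact absurd h.symm q
      · exact absurd h p
      · exact h

/-- suppressing a vertex with two edges -/
lemma stepA' {G : OrGraph V E} (hG : G.Bridgeless) (hd : ∀ v, (G.cut {v}).card ≤ 3) {v : V}
    (hv : (G.cut {v}).card = 2) :
    ∃ G' : OrGraph V E, G'.Bridgeless ∧ (∀ v, (G'.cut {v}).card ≤ 3) ∧ nl G' < nl G ∧
      (Good G' → Good G) ∧ od G' ≤ od G := by
  obtain ⟨a, b, hab, hc⟩ := card_eq_two.1 hv
  have hma : a ∈ G.cut {v} := by rw [hc]; simp
  have hma' := mem_cut_one.1 hma
  have hpq : G.t a ≠ G.h a := by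
    intro h
    rw [h] at hma'
    exact hma' Iff.rfl
  refine ⟨merge G a, merge_bridgeless hG a, ?_, nl_merge hpq, ?_, od_merge hv hma⟩
  · intro w
    by_cases hwq : w = G.h a
    · have h1 : (merge G a).cut {w} = ∅ := by
        ext z
        rw [mem_cut_one]
        have h2 : (merge G a).t z ≠ w := by
          unfold merge
          rw [hwq]
          dsimp only
          split_ifs with h3
          · exact hpq
          · exact h3
        have h3 : (merge G a).h z ≠ w := by
          unfold merge
          rw [hwq]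
          dsimp only
          split_ifs with h3
          · exact hpq
          · exact h3
        simp [h2, h3]
      rw [h1]
      simp
    · by_cases hwp : w = G.t a
      · have hp3 := hd (G.t a)
        have hq3 := hd (G.h a)
        have hap : a ∈ G.cut {G.t a} := (joins_ends G a).mem_cut_one hpq
        have haq : a ∈ G.cut {G.h a} := (joins_ends G a).symm'.mem_cut_one hpq.symm
        have hsub : (merge G a).cut {w} ⊆ ((G.cut {G.t a}).erase a) ∪ ((G.cut {G.h a}).erase a) := by
          intro z hz
          rw [mem_cut_one] at hz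
          unfold merge at hz
          dsimp only at hz
          rw [mem_union, mem_erase, mem_erase, mem_cut_one, mem_cut_one]
          have hza : z ≠ a := by
            rintro rfl
            apply hz
            rw [if_neg hpq, if_pos rfl]
          by_contra h
          push Not at h
          have h1 := h.1 hza
          have h2 := h.2 hza
          apply hz
          rw [hwp]
          by_cases h3 : G.t z = G.h a
          · rw [if_pos h3, if_pos (h2.1 h3)]
          · rw [if_neg h3, if_neg (fun h => h3 (h2.2 h))]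
            exact h1
        refine (card_le_card hsub).trans ((card_union_le _ _).trans ?_)
        rw [card_erase_of_mem hap, card_erase_of_mem haq]
        have h5 : v = G.t a ∨ v = G.h a := by
          by_contra h
          push Not at h
          exact hma' ⟨fun h' => absurd h'.symm h.1, fun h' => absurd h'.symm h.2⟩
        rcases h5 with h5 | h5
        · rw [h5] at hv
          omega
        · rw [h5] at hv
          omega
      · have h1 : (merge G a).cut {w} = G.cut {w} := by
          ext z
          rw [mem_cut_one, mem_cut_one]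
          have key : ∀ u : V, ((if u = G.h a then G.t a else u) = w ↔ u = w) := by
            intro u
            split_ifs with h
            · rw [h]
              exact ⟨fun h => absurd h.symm hwp, fun h => absurd h.symm hwq⟩
            · exact Iff.rfl
          unfold merge
          dsimp only
          rw [key, key]
        rw [h1]
        exact hd w
  · rintro ⟨ψ, hψ, hok⟩
    refine fix2 G {v} a b hab hc ψ (fun w h1 h2 => ?_) (fun e _ => hok e)
    rw [← hψ w]
    have key : ∀ u : V, ((if u = G.h a then G.t a else u) = w ↔ u = w) := by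
      intro u
      split_ifs with h
      · rw [h]
        exact ⟨fun h => absurd h.symm h1, fun h => absurd h.symm h2⟩
      · exact Iff.rfl
    symm
    exact gn_congr (fun z => key _) (fun z => key _) ψ

/-- a cut with two edges is destroyed -/
lemma stepB' {G : OrGraph V E} (hG : G.Bridgeless) (hd : ∀ v, (G.cut {v}).card ≤ 3)
    (hv2 : ∀ v, (G.cut {v}).card ≠ 2) {X : Finset V} {x y : V} (hx : x ∈ X) (hy : y ∉ X)
    {e₁ e₂ : E} (hne : e₁ ≠ e₂) (hc : G.cut X = {e₁, e₂}) (hj : Joins G e₁ x y) :
    ∃ G' : OrGraph V E, G'.Bridgeless ∧ (∀ v, (G'.cut {v}).card ≤ 3) ∧ nl G' ≤ nl G ∧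
      c2 G' < c2 G ∧ (Good G' → Good G) ∧ od G' ≤ od G := by
  have hxy : x ≠ y := fun h => hy (h ▸ hx)
  have hX : ∀ z, z ∈ G.cut X ↔ z = e₁ ∨ z = e₂ := fun z => by
    rw [hc, mem_insert, mem_singleton]
  have hX' : ∀ z, z ∈ G.cut Xᶜ ↔ z = e₁ ∨ z = e₂ := fun z => by
    rw [cut_compl]
    exact hX z
  have mx : e₁ ∈ G.cut {x} := hj.mem_cut_one hxy
  have my : e₁ ∈ G.cut {y} := hj.symm'.mem_cut_one hxy.symm
  have three : ∀ v, e₁ ∈ G.cut {v} → (G.cut {v}).card = 3 := by
    intro v hv
    have h1 := hd v
    have h2 := hv2 v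
    have h3 := card_ne_one hG {v}
    have h4 : 0 < (G.cut {v}).card := card_pos.2 ⟨_, hv⟩
    omega
  have others : ∀ v, e₁ ∈ G.cut {v} → ∃ a b, a ≠ b ∧ e₁ ≠ a ∧ e₁ ≠ b ∧
      ∀ z, z ∈ G.cut {v} ↔ z = e₁ ∨ z = a ∨ z = b := by
    intro v hv
    have h1 : ((G.cut {v}).erase e₁).card = 2 := by
      rw [card_erase_of_mem hv, three v hv]
    obtain ⟨a, b, hab, h2⟩ := card_eq_two.1 h1
    have h3 : ∀ z, z ∈ (G.cut {v}).erase e₁ ↔ z = a ∨ z = b := fun z => by
      rw [h2, mem_insert, mem_singleton]
    simp only [mem_erase] at h3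
    refine ⟨a, b, hab, fun h => ((h3 a).2 (Or.inl rfl)).1 h.symm,
      fun h => ((h3 b).2 (Or.inr rfl)).1 h.symm, fun z => ?_⟩
    rw [← h3 z]
    constructor
    · intro h
      by_cases hz : z = e₁
      · exact Or.inl hz
      · exact Or.inr ⟨hz, h⟩
    · rintro (rfl | h)
      · exact hv
      · exact h.2
  obtain ⟨a, b, hab, h1a, h1b, hvx⟩ := others x mx
  obtain ⟨d, c, hdc, h1d, h1c, hvy⟩ := others y my
  have hx2 : e₂ ∉ G.cut {x} := second_not_inc hG hx hX hne mx (three x mx)
  have hy2 : e₂ ∉ G.cut {y} := second_not_inc hG (mem_compl.2 hy) hX' hne my (three y my)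
  have h2a : e₂ ≠ a := fun h => hx2 ((hvx _).2 (Or.inr (Or.inl h)))
  have h2b : e₂ ≠ b := fun h => hx2 ((hvx _).2 (Or.inr (Or.inr h)))
  have h2d : e₂ ≠ d := fun h => hy2 ((hvy _).2 (Or.inr (Or.inl h)))
  have h2c : e₂ ≠ c := fun h => hy2 ((hvy _).2 (Or.inr (Or.inr h)))
  have mb := (hvx b).2 (Or.inr (Or.inr rfl))
  have mc := (hvy c).2 (Or.inr (Or.inr rfl))
  have bX : b ∉ G.cut X := fun h => ((hX b).1 h).elim (fun h => h1b h.symm) (fun h => h2b h.symm)
  have cX : c ∉ G.cut X := fun h => ((hX c).1 h).elim (fun h => h1c h.symm) (fun h => h2c h.symm)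
  have hbc : b ≠ c := by
    rintro rfl
    rw [mem_cut_one] at mb mc
    rw [mem_cut, not_not] at bX
    by_cases h1 : G.t b = x
    · have h2 : G.h b ∈ X := bX.1 (h1 ▸ hx)
      exact mc ⟨fun h => absurd (h1.symm.trans h) hxy, fun h => absurd (h ▸ h2) hy⟩
    · by_cases h3 : G.h b = x
      · have h2 : G.t b ∈ X := bX.2 (h3 ▸ hx)
        exact mc ⟨fun h => absurd (h ▸ h2) hy, fun h => absurd (h3.symm.trans h) hxy⟩
      · exact mb ⟨fun h => absurd h h1, fun h => absurd h h3⟩
  obtain ⟨G', hG'⟩ : ∃ G', G' = sw G x y b c := ⟨_, rfl⟩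
  have e1ne : (sw G x y b c).t e₁ = G.t e₁ ∧ (sw G x y b c).h e₁ = G.h e₁ :=
    sw_of_ne G x y h1b h1c
  have hj' : Joins G' e₁ x y := by
    rw [hG']
    unfold Joins
    rw [e1ne.1, e1ne.2]
    exact hj
  have hsep : ∀ Z : Finset V, x ∈ Z → y ∉ Z → ∀ f, (∀ z, z ∈ G'.cut Z → z = e₁ ∨ z = f) →
      False := by
    intro Z h1 h2 f h3
    rw [hG'] at h3
    exact sw_sep hG hx hy hX hvx hvy h1a h1b h1c h1d hab hdc h2a h2b h2c h2d hbc h1 h2 f h3
  have hsep' : ∀ Z : Finset V, ¬ (x ∈ Z ↔ y ∈ Z) → ∀ f, (∀ z, z ∈ G'.cut Z → z = e₁ ∨ z = f) →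
      False := by
    intro Z h1 f h3
    by_cases h4 : x ∈ Z
    · exact hsep Z h4 (fun h => h1 ⟨fun _ => h, fun _ => h4⟩) f h3
    · have h5 : y ∈ Z := by
        by_contra h
        exact h1 ⟨fun h' => absurd h' h4, fun h' => absurd h' h⟩
      refine hsep Zᶜ (mem_compl.2 h4) (by simpa using h5) f (fun z hz => ?_)
      rw [cut_compl] at hz
      exact h3 z hz
  have hsame : ∀ Z : Finset V, (x ∈ Z ↔ y ∈ Z) → G'.cut Z = G.cut Z := by
    intro Z h
    rw [hG']
    exact sw_cut_same G b c h
  refine ⟨G', ?_, ?_, ?_, ?_, ?_, ?_⟩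
  · rw [bridgeless_iff]
    intro Z e he
    by_cases h : (x ∈ Z ↔ y ∈ Z)
    · rw [hsame Z h] at he
      exact (bridgeless_iff G).1 hG Z e he
    · refine hsep' Z h e (fun z hz => ?_)
      rw [he, mem_singleton] at hz
      exact Or.inr hz
  · intro v
    have hxv : ∀ z, z ∈ G'.cut {x} → z ∈ ({e₁, a, c} : Finset E) := by
      intro z hz
      rw [mem_insert, mem_insert, mem_singleton]
      by_cases hzc : z = c
      · exact Or.inr (Or.inr hzc)
      by_cases hzb : z = b
      · exfalso
        subst hzb
        rw [mem_cut_one, hG'] at hz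
        unfold sw at hz
        rw [mem_cut_one] at mb
        by_cases h1 : G.t z = x
        · have h2 : ¬ G.h z = x := fun h => mb ⟨fun _ => h, fun _ => h1⟩
          apply hz
          simp [h1, h2, hbc, hxy.symm]
        · have h2 : G.h z = x := by
            by_contra h
            exact mb ⟨fun h' => absurd h' h1, fun h' => absurd h' h⟩
          apply hz
          simp [h1, h2, hbc, hxy.symm]
      · have h1 := sw_of_ne G x y hzb hzc
        rw [mem_cut_one, hG', h1.1, h1.2, ← mem_cut_one] at hz
        rcases (hvx z).1 hz with h | h | h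
        · exact Or.inl h
        · exact Or.inr (Or.inl h)
        · exact absurd h hzb
    have hyv : ∀ z, z ∈ G'.cut {y} → z ∈ ({e₁, d, b} : Finset E) := by
      intro z hz
      rw [mem_insert, mem_insert, mem_singleton]
      by_cases hzb : z = b
      · exact Or.inr (Or.inr hzb)
      by_cases hzc : z = c
      · exfalso
        subst hzc
        rw [mem_cut_one, hG'] at hz
        unfold sw at hz
        rw [mem_cut_one] at mc
        by_cases h1 : G.t z = y
        · have h2 : ¬ G.h z = y := fun h => mc ⟨fun _ => h, fun _ => h1⟩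
          apply hz
          simp [h1, h2, hbc.symm, hxy]
        · have h2 : G.h z = y := by
            by_contra h
            exact mc ⟨fun h' => absurd h' h1, fun h' => absurd h' h⟩
          apply hz
          simp [h1, h2, hbc.symm, hxy]
      · have h1 := sw_of_ne G x y hzb hzc
        rw [mem_cut_one, hG', h1.1, h1.2, ← mem_cut_one] at hz
        rcases (hvy z).1 hz with h | h | h
        · exact Or.inl h
        · exact Or.inr (Or.inl h)
        · exact absurd h hzc
    by_cases hv1 : v = x
    · rw [hv1]
      exact (card_le_card hxv).trans card_le_three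
    · by_cases hv3 : v = y
      · rw [hv3]
        exact (card_le_card hyv).trans card_le_three
      · rw [hsame {v} (by
          rw [mem_singleton, mem_singleton]
          exact ⟨fun h => absurd h.symm hv1, fun h => absurd h.symm hv3⟩)]
        exact hd v
  · unfold nl
    apply card_le_card
    intro z hz
    rw [mem_filter] at hz ⊢
    refine ⟨mem_univ _, fun h => hz.2 ?_⟩
    rw [hG']
    unfold sw
    simp only [h]
  · unfold c2
    apply card_lt_card
    rw [ssubset_iff_of_subset]
    · refine ⟨X, ?_, ?_⟩
      · rw [mem_filter]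
        exact ⟨mem_univ _, by rw [hc, card_pair hne]⟩
      · rw [mem_filter]
        rintro ⟨-, h⟩
        have h0 : ¬ (x ∈ X ↔ y ∈ X) := fun h => hy (h.1 hx)
        have h1 : e₁ ∈ G'.cut X := (hj'.cut_iff X).2 h0
        obtain ⟨p, q, hpq, h2⟩ := card_eq_two.1 h
        rw [h2, mem_insert, mem_singleton] at h1
        rcases h1 with rfl | rfl
        · refine hsep' X h0 q (fun z hz => ?_)
          rw [h2, mem_insert, mem_singleton] at hz
          exact hz
        · refine hsep' X h0 p (fun z hz => ?_)
          rw [h2, mem_insert, mem_singleton] at hz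
          exact hz.symm
    · intro Z hZ
      rw [mem_filter] at hZ ⊢
      refine ⟨mem_univ _, ?_⟩
      by_cases h0 : (x ∈ Z ↔ y ∈ Z)
      · rw [← hsame Z h0]
        exact hZ.2
      · exfalso
        have h1 : e₁ ∈ G'.cut Z := (hj'.cut_iff Z).2 h0
        obtain ⟨p, q, hpq, h2⟩ := card_eq_two.1 hZ.2
        rw [h2, mem_insert, mem_singleton] at h1
        rcases h1 with rfl | rfl
        · refine hsep' Z h0 q (fun z hz => ?_)
          rw [h2, mem_insert, mem_singleton] at hz
          exact hz
        · refine hsep' Z h0 p (fun z hz => ?_)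
          rw [h2, mem_insert, mem_singleton] at hz
          exact hz.symm
  · rintro ⟨ψ, hψ, hok⟩
    refine fix2 G X e₁ e₂ hne hc ψ (fun w h1 h2 => ?_) (fun e _ => hok e)
    rw [← hψ w]
    have h3 : w ≠ x ∧ w ≠ y := by
      rcases hj with ⟨h4, h5⟩ | ⟨h4, h5⟩
      · exact ⟨h4 ▸ h1, h5 ▸ h2⟩
      · exact ⟨h5 ▸ h2, h4 ▸ h1⟩
    symm
    rw [hG']
    exact gn_congr (fun z => (sw_eq_iff G x y b c z h3.1 h3.2).1)
      (fun z => (sw_eq_iff G x y b c z h3.1 h3.2).2) ψ
  · unfold od
    apply card_le_card
    intro w hw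
    rw [mem_filter] at hw ⊢
    refine ⟨mem_univ _, ?_⟩
    by_cases h1 : w = x
    · rw [h1, three x mx]
      decide
    · by_cases h2 : w = y
      · rw [h2, three y my]
        decide
      · rw [← hsame {w} (by
          rw [mem_singleton, mem_singleton]
          exact ⟨fun h => absurd h.symm h1, fun h => absurd h.symm h2⟩)]
        exact hw.2

lemma od_del {G : OrGraph V E} (hG : G.Bridgeless) (hd : ∀ v, (G.cut {v}).card ≤ 3)
    (hA : ∀ v, (G.cut {v}).card ≠ 2) (S : Finset E) : od (del G S) ≤ od G := by
  unfold od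
  apply card_le_card
  intro w hw
  rw [mem_filter] at hw ⊢
  refine ⟨mem_univ _, ?_⟩
  have h1 := hw.2
  rw [cut_del] at h1
  have h2 : 0 < (G.cut {w} \ S).card := h1.pos
  have h3 := card_le_card (sdiff_subset : G.cut {w} \ S ⊆ G.cut {w})
  have h4 := hd w
  have h5 := hA w
  have h6 := card_ne_one hG {w}
  have h7 : (G.cut {w}).card = 3 := by omega
  rw [h7]
  decide

theorem reduce' (m : ℕ) (H : ∀ K : OrGraph V E, Base K → od K ≤ m → Good K) (n : ℕ) :
    ∀ G : OrGraph V E, nl G * (2 ^ Fintype.card V + 1) + c2 G = n → G.Bridgeless →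
      (∀ v, (G.cut {v}).card ≤ 3) → od G ≤ m → Good G := by
  induction n using Nat.strong_induction_on with
  | _ n ih =>
    intro G hn hG hd hm
    have lower : ∀ G' : OrGraph V E, nl G' < nl G → G'.Bridgeless →
        (∀ v, (G'.cut {v}).card ≤ 3) → od G' ≤ od G → Good G' := by
      intro G' h1 h2 h3 ho
      refine ih _ ?_ G' rfl h2 h3 (ho.trans hm)
      rw [← hn]
      have h4 := c2_le G'
      have h5 : (nl G' + 1) * (2 ^ Fintype.card V + 1) ≤ nl G * (2 ^ Fintype.card V + 1) :=
        Nat.mul_le_mul_right _ h1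
      nlinarith
    by_cases hA : ∃ v, (G.cut {v}).card = 2
    · obtain ⟨v, hv⟩ := hA
      obtain ⟨G', h1, h2, h3, h4, h5⟩ := stepA' hG hd hv
      exact h4 (lower G' h3 h1 h2 h5)
    · push Not at hA
      by_cases hB : ∃ X, (G.cut X).card = 2
      · obtain ⟨X, hX⟩ := hB
        obtain ⟨e₁, e₂, hne, hc⟩ := card_eq_two.1 hX
        have hm' : e₁ ∈ G.cut X := by rw [hc]; simp
        rw [mem_cut] at hm'
        obtain ⟨G', h1, h2, h3, h4, h5, h7⟩ : ∃ G' : OrGraph V E, G'.Bridgeless ∧
            (∀ v, (G'.cut {v}).card ≤ 3) ∧ nl G' ≤ nl G ∧ c2 G' < c2 G ∧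
            (Good G' → Good G) ∧ od G' ≤ od G := by
          by_cases ht : G.t e₁ ∈ X
          · exact stepB' hG hd hA ht (fun h => hm' ⟨fun _ => h, fun _ => ht⟩) hne hc
              (joins_ends G e₁)
          · have hh : G.h e₁ ∈ X := by
              by_contra h
              exact hm' ⟨fun h' => absurd h' ht, fun h' => absurd h' h⟩
            exact stepB' hG hd hA hh ht hne hc (joins_ends G e₁).symm'
        refine h5 (ih _ ?_ G' rfl h1 h2 (h7.trans hm))
        rw [← hn]
        have h6 : nl G' * (2 ^ Fintype.card V + 1) ≤ nl G * (2 ^ Fintype.card V + 1) :=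
          Nat.mul_le_mul_right _ h3
        omega
      · push Not at hB
        by_cases hbase : Base G
        · exact H G hbase hm
        · by_contra hcon
          apply hbase
          refine ⟨hG, hB, hd, ?_, ?_, ?_, ?_⟩
          · intro e₁ e₂ u₁ u₂ hu h1 h2
            by_contra he
            exact hcon (good_two h1 h2 hu he (lower _ (nl_del (mem_singleton_self _)
              (h1.not_loop hu)) (del_one hG hB e₁) (deg_del _ hd) (od_del hG hd hA _)))
          · intro e₁ e₂ e₃ u₁ u₂ u₃ h12 h13 h23 h1 h2 h3
            exact hcon (good_three h1 h2 h3 h12 h13 h23 (lower _ (nl_del (mem_singleton_self _)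
              (h1.not_loop h12)) (del_one hG hB e₁) (deg_del _ hd) (od_del hG hd hA _)))
          · intro e₁ e₂ e₃ e₄ u₁ u₂ u₃ u₄ h12 h13 h14 h23 h24 h34 h1 h2 h3 h4
            rcases del_four hG hB h1 h2 h3 h4 h12 h13 h14 h23 h24 h34 with h | h
            · exact hcon (good_four h1 h2 h3 h4 h12 h13 h14 h23 h24 h34
                (lower _ (nl_del (mem_insert_self _ _) (h1.not_loop h12)) h (deg_del _ hd) (od_del hG hd hA _)))
            · exact hcon (good_four h2 h3 h4 h1 h23 h24 h12.symm h34 h13.symm h14.symm
                (lower _ (nl_del (mem_insert_self _ _) (h2.not_loop h23)) h (deg_del _ hd) (od_del hG hd hA _)))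
          · intro X hX
            by_contra h
            push Not at h
            obtain ⟨⟨e, he1, he2⟩, ⟨f, hf1, hf2⟩⟩ := h
            have hT : univ.filter (fun e => G.t e ∉ X) = univ.filter (fun e => G.t e ∈ Xᶜ) := by
              ext z
              simp
            refine hcon (good_sides hX rfl rfl (lower _ (nl_del (e := e) (by simpa using he1) he2)
              (del_side hG hX rfl) (deg_del _ hd) (od_del hG hd hA _)) (lower _ (nl_del (e := f) (by simpa using hf1)
              hf2) ?_ (deg_del _ hd) (od_del hG hd hA _)))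
            exact del_side hG (X := Xᶜ) (by rw [cut_compl]; exact hX) hT

end Pool.Agent.Q234.HG
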