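import Mathlib
import Pool.Agent.Q234.HG.Ind
import Pool.Agent.TH583.FO.Main

/-! # Cubic graphs with few vertices -/

set_option autoImplicit false
set_option linter.unusedSectionVars false

namespace Pool.Agent.Q234.HG
open Finset Pool.Agent.H160R2.HF Pool.Agent.H160R2.HF.OrGraph Pool.Agent.Q234.HF
open Pool.Agent.TH583.FO (cut_comp noloop oddSets mem_oddSets oddCount_le even_oddCount)

variable {V E : Type} [Fintype V] [Fintype E] [DecidableEq V] [DecidableEq E]

/-- the circuits of a 2-factor have at least five vertices -/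
lemma five_le {G : OrGraph V E} (hl : ∀ e, G.t e ≠ G.h e) (hg : GirthAtLeastFive G)
    {F : Finset E} (hF : G.IsTwoFactor F) {S : Finset V} (c : (G.sub F).ConnectedComponent)
    (hcs : c.supp = (S : Set V)) : 5 ≤ S.card := by
  have hcut := cut_comp G hl c hcs
  have hs := G.handshake F S
  rw [Finset.sum_congr rfl (fun v _ => hF v), Finset.sum_const, smul_eq_mul, hcut, card_empty] at hs
  have hin : ∀ e ∈ F, (G.t e ∈ S ↔ G.h e ∈ S) := by
    intro e he
    by_contra h
    have h1 : e ∈ G.cut S ∩ F := mem_inter.2 ⟨mem_cut.2 h, he⟩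
    rw [hcut] at h1
    simp at h1
  obtain ⟨v, hv⟩ := c.nonempty_supp
  rw [hcs, mem_coe] at hv
  have hpos : 0 < S.card := card_pos.2 ⟨v, hv⟩
  have hC := hg (F.filter fun e => G.t e ∈ S ∧ G.h e ∈ S) (card_pos.1 (by omega)) (fun w => by
    by_cases hw : w ∈ S
    · have h2 : G.deg (F.filter fun e => G.t e ∈ S ∧ G.h e ∈ S) w = G.deg F w := by
        unfold OrGraph.deg
        congr 2
        · ext e
          simp only [mem_filter]
          constructor
          · rintro ⟨⟨h1, -⟩, h2⟩
            exact ⟨h1, h2⟩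
          · rintro ⟨h1, h2⟩
            have h3 : G.t e ∈ S := h2 ▸ hw
            exact ⟨⟨h1, h3, (hin e h1).1 h3⟩, h2⟩
        · ext e
          simp only [mem_filter]
          constructor
          · rintro ⟨⟨h1, -⟩, h2⟩
            exact ⟨h1, h2⟩
          · rintro ⟨h1, h2⟩
            have h3 : G.h e ∈ S := h2 ▸ hw
            exact ⟨⟨h1, (hin e h1).2 h3, h3⟩, h2⟩
      rw [h2, hF w]
      decide
    · have h2 : G.deg (F.filter fun e => G.t e ∈ S ∧ G.h e ∈ S) w = 0 := by
        unfold OrGraph.deg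
        rw [Nat.add_eq_zero_iff, card_eq_zero, card_eq_zero, filter_eq_empty_iff,
          filter_eq_empty_iff]
        constructor
        · intro e he h
          rw [mem_filter] at he
          exact hw (h ▸ he.2.1)
        · intro e he h
          rw [mem_filter] at he
          exact hw (h ▸ he.2.2)
      rw [h2]
      decide)
  omega

lemma oddCount_five {G : OrGraph V E} (hl : ∀ e, G.t e ≠ G.h e) (hg : GirthAtLeastFive G)
    {F : Finset E} (hF : G.IsTwoFactor F) : 5 * G.oddCount F ≤ Fintype.card V := by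
  classical
  have h1 : 5 * (oddSets G F).card ≤ ∑ S ∈ oddSets G F, S.card := by
    rw [mul_comm, ← smul_eq_mul]
    refine Finset.card_nsmul_le_sum _ _ _ fun S hS => ?_
    obtain ⟨-, c, hc⟩ := mem_oddSets.1 hS
    exact five_le hl hg hF c hc
  have h2 : ∑ S ∈ oddSets G F, S.card ≤ Fintype.card V := by
    rw [← Finset.card_biUnion]
    · exact card_le_univ _
    · intro S hS T hT hne
      obtain ⟨-, c, hc⟩ := mem_oddSets.1 hS
      obtain ⟨-, d, hd⟩ := mem_oddSets.1 hT
      change Disjoint S T
      rw [Finset.disjoint_left]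
      intro v hv hw
      rw [← mem_coe, ← hc, SimpleGraph.ConnectedComponent.mem_supp_iff] at hv
      rw [← mem_coe, ← hd, SimpleGraph.ConnectedComponent.mem_supp_iff] at hw
      apply hne
      rw [← Finset.coe_inj, ← hc, ← hd, ← hv, ← hw]
  have h3 := oddCount_le G F
  omega

theorem small (G : OrGraph V E) (hc : G.Cubic) (hb : G.Bridgeless) (hg : GirthAtLeastFive G)
    (hn : Fintype.card V ≤ 18) : ∃ φ₂ φ₄ : E → ℤ, G.IsHalfFlowPair φ₂ φ₄ := by
  refine Pool.Agent.TH583.FO.main G hc hb 1 (Or.inl rfl) (fun _ => 0) (fun _ => le_rfl) ?_ ?_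
  · intro F hF _ hodd
    exfalso
    have h1 := oddCount_five (noloop G hc hb) hg hF
    obtain ⟨k, hk⟩ := even_oddCount G hc F
    omega
  · simp

lemma odd_deg (G : OrGraph V E) (v : V) : Odd (G.deg univ v) ↔ Odd (G.cut {v}).card := by
  have h := G.handshake univ {v}
  rw [Finset.sum_singleton, Finset.inter_univ] at h
  rw [h, add_comm, Nat.odd_add]
  simp

lemma od_eq (G : OrGraph V E) : (univ.filter fun v => Odd (G.deg univ v)).card = od G := by
  unfold od
  congr 1
  ext v
  rw [mem_filter, mem_filter, odd_deg]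

/-- the reduction with the number of vertices -/
theorem red (m : ℕ)
    (H : ∀ (V E : Type) [Fintype V] [Fintype E] [DecidableEq V] [DecidableEq E] (G : OrGraph V E),
      G.Cubic → ThreeEdgeConnected G → GirthAtLeastFive G → Fintype.card V ≤ m →
        ∃ φ₂ φ₄ : E → ℤ, G.IsHalfFlowPair φ₂ φ₄)
    (G : OrGraph V E) (hG : G.Bridgeless)
    (hm : (univ.filter fun v => Odd (G.deg univ v)).card ≤ m) :
    ∃ φ₂ φ₄ : E → ℤ, G.IsHalfFlowPair φ₂ φ₄ := by
  rw [od_eq] at hm
  rw [good_iff]
  obtain ⟨G', h1, h2, h3, h4⟩ := to_three _ G rfl hG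
  refine h4 (reduce' m ?_ _ G' rfl h1 h2 (h3.le.trans hm))
  intro K hK ho
  obtain ⟨k1, k2, k3⟩ := core_spec hK
  refine good_core ((good_iff _).1 (H _ _ (core K) k1 k2 k3 (le_trans ?_ ho)))
  rw [Fintype.card_subtype]
  unfold od
  apply card_le_card
  intro v hv
  rw [mem_filter] at hv ⊢
  refine ⟨mem_univ _, ?_⟩
  rw [base_card hK v hv.2]
  decide

lemma three_bridgeless {G : OrGraph V E} (h3 : ThreeEdgeConnected G) : G.Bridgeless := by
  rw [bridgeless_iff]
  intro X e he
  have h1 : X.Nonempty := by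
    rw [Finset.nonempty_iff_ne_empty]
    rintro rfl
    have : e ∈ G.cut ∅ := by rw [he]; simp
    rw [mem_cut] at this
    simp at this
  have h2 : X ≠ Finset.univ := by
    rintro rfl
    have : e ∈ G.cut Finset.univ := by rw [he]; simp
    rw [mem_cut] at this
    simp at this
  have h4 := h3 X h1 h2
  rw [he, Finset.card_singleton] at h4
  omega

end Pool.Agent.Q234.HG
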